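import Pool.Agent.L7h67.WB.Stm

/-! Project WB (helper67): `S_FAMS`, `S_FAML`. -/

set_option autoImplicit false

namespace Pool.Agent.L7h22.WB

open Finset MeasureTheory Polynomial Filter
open Pool.Agent.L7h67.WB

/-- a polynomial of degree at most `n` is asymptotic to its monomial of degree `n` -/
lemma asym0 (p : ℝ[X]) (n : ℕ) (hp : p.natDegree ≤ n) (ε : ℝ) (hε : 0 < ε) :
    ∀ᶠ y : ℝ in atTop, |p.eval y - p.coeff n * y ^ n| ≤ ε * y ^ n := by
  set q : ℝ[X] := p - C (p.coeff n) * X ^ n with hq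
  have hdeg : q.degree < ((X : ℝ[X]) ^ n).degree := by
    rw [degree_X_pow, degree_lt_iff_coeff_zero]
    intro m hm
    rw [hq, coeff_sub, coeff_C_mul, coeff_X_pow]
    rcases eq_or_lt_of_le hm with h | h
    · rw [← h, if_pos rfl]; ring
    · rw [if_neg (by omega), coeff_eq_zero_of_natDegree_lt (by omega)]; ring
  have h1 := div_tendsto_atTop_zero_of_degree_lt q (X ^ n) hdeg
  have h2 := (Metric.tendsto_nhds.1 h1) ε hε
  filter_upwards [h2, eventually_gt_atTop (0 : ℝ)] with y hy hy0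
  rw [Real.dist_eq, sub_zero, eval_pow, eval_X, abs_div, abs_of_pos (pow_pos hy0 n),
    div_lt_iff₀ (pow_pos hy0 n)] at hy
  have h3 : q.eval y = p.eval y - p.coeff n * y ^ n := by
    rw [hq]; simp
  rw [h3] at hy
  exact hy.le

lemma coeff_X_add_C_pow' (R : ℝ) (n : ℕ) : ((X + C R) ^ n : ℝ[X]).coeff n = 1 := by
  have h1 : ((X + C R) ^ n : ℝ[X]).natDegree = n := by
    rw [natDegree_pow, natDegree_X_add_C, mul_one]
  have h2 : ((X + C R) ^ n : ℝ[X]).Monic := (monic_X_add_C R).pow n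
  have h3 := h2.coeff_natDegree
  rwa [h1] at h3

/-- uniformly in bounded shifts -/
lemma asym (p : ℝ[X]) (n : ℕ) (hp : p.natDegree ≤ n) (R ε : ℝ) (hε : 0 < ε) :
    ∃ X0 : ℝ, 1 ≤ X0 ∧ ∀ θ, |θ| ≤ R → ∀ x, X0 ≤ x → |p.eval (x - θ) - p.coeff n * x ^ n| ≤ ε * x ^ n := by
  rcases lt_or_ge R 0 with hR | hR
  · exact ⟨1, le_rfl, fun θ hθ => absurd ((abs_nonneg θ).trans hθ) (not_le.2 hR)⟩
  set a := p.coeff n with ha
  have e1 : 0 < ε / 2 / 2 ^ n := by positivity
  have e2 : 0 < ε / 2 / (|a| + 1) := by positivity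
  have h1 := asym0 p n hp _ e1
  have h2 := asym0 ((X + C R) ^ n) n (by rw [natDegree_pow, natDegree_X_add_C, mul_one]) _ e2
  have h3 := asym0 ((X + C (-R)) ^ n) n (by rw [natDegree_pow, natDegree_X_add_C, mul_one]) _ e2
  rw [coeff_X_add_C_pow'] at h2 h3
  obtain ⟨Y1, hY1⟩ := eventually_atTop.1 h1
  obtain ⟨Y2, hY2⟩ := eventually_atTop.1 h2
  obtain ⟨Y3, hY3⟩ := eventually_atTop.1 h3
  refine ⟨max 1 (max (Y1 + R) (max Y2 (max Y3 (R + 1)))), le_max_left _ _, ?_⟩
  intro θ hθ x hx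
  rw [max_le_iff, max_le_iff, max_le_iff, max_le_iff] at hx
  obtain ⟨hx1, hx2, hx3, hx4, hx5⟩ := hx
  have hθ' := abs_le.1 hθ
  have hx0 : 0 < x := by linarith
  have hy0 : 0 ≤ x - θ := by linarith
  have hlo : x - R ≤ x - θ := by linarith
  have hhi : x - θ ≤ x + R := by linarith
  have k1 := hY1 (x - θ) (by linarith)
  have k2 := hY2 x hx3
  have k3 := hY3 x hx4
  simp only [eval_pow, eval_add, eval_X, eval_C, one_mul] at k2 k3
  have k4 : (x - θ) ^ n ≤ (x + R) ^ n := pow_le_pow_left₀ hy0 hhi n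
  have k5 : (x + -R) ^ n ≤ (x - θ) ^ n := pow_le_pow_left₀ (by linarith) (by linarith) n
  have k6 : |(x - θ) ^ n - x ^ n| ≤ ε / 2 / (|a| + 1) * x ^ n := by
    rw [abs_le] at k2 k3 ⊢
    constructor <;> linarith [k2.1, k2.2, k3.1, k3.2]
  have k7 : (x - θ) ^ n ≤ 2 ^ n * x ^ n := by
    rw [← mul_pow]
    exact pow_le_pow_left₀ hy0 (by linarith) n
  have k8 : |p.eval (x - θ) - a * (x - θ) ^ n| ≤ ε / 2 * x ^ n := by
    refine k1.trans ?_
    calc ε / 2 / 2 ^ n * (x - θ) ^ n ≤ ε / 2 / 2 ^ n * (2 ^ n * x ^ n) := by gcongr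
      _ = ε / 2 * x ^ n := by field_simp
  have k9 : |a * (x - θ) ^ n - a * x ^ n| ≤ ε / 2 * x ^ n := by
    rw [← mul_sub, abs_mul]
    calc |a| * |(x - θ) ^ n - x ^ n| ≤ (|a| + 1) * (ε / 2 / (|a| + 1) * x ^ n) := by
          apply mul_le_mul _ k6 (abs_nonneg _) (by positivity)
          linarith
      _ = ε / 2 * x ^ n := by field_simp
  calc |p.eval (x - θ) - a * x ^ n| =
        |(p.eval (x - θ) - a * (x - θ) ^ n) + (a * (x - θ) ^ n - a * x ^ n)| := by congr 1; ring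
    _ ≤ |p.eval (x - θ) - a * (x - θ) ^ n| + |a * (x - θ) ^ n - a * x ^ n| := abs_add_le _ _
    _ ≤ ε * x ^ n := by linarith

/-- bound -/
lemma bd_of_asym (p : ℝ[X]) (n : ℕ) (hp : p.natDegree ≤ n) (R : ℝ) :
    ∃ X0 : ℝ, 1 ≤ X0 ∧ ∀ θ, |θ| ≤ R → ∀ x, X0 ≤ x → |p.eval (x - θ)| ≤ (|p.coeff n| + 1) * x ^ n := by
  obtain ⟨X0, h0, h1⟩ := asym p n hp R 1 one_pos
  refine ⟨X0, h0, fun θ hθ x hx => ?_⟩
  have h2 := h1 θ hθ x hx
  have hx0 : 0 ≤ x ^ n := by have : 0 < x := by linarith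
                             positivity
  have h3 : |p.eval (x - θ)| ≤ |p.eval (x - θ) - p.coeff n * x ^ n| + |p.coeff n * x ^ n| := by
    have := abs_add_le (p.eval (x - θ) - p.coeff n * x ^ n) (p.coeff n * x ^ n)
    rwa [sub_add_cancel] at this
  rw [abs_mul, abs_of_nonneg hx0] at h3
  linarith

/-- mean value theorem -/
lemma mvt {F F' : ℝ → ℝ} (h : ∀ x, HasDerivAt F (F' x) x) {u v m : ℝ} (huv : u ≤ v)
    (hm : ∀ x, u ≤ x → x ≤ v → m ≤ F' x) : m * (v - u) ≤ F v - F u := by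
  have h1 := (convex_Icc u v).mul_sub_le_image_sub_of_le_deriv (f := F) (C := m)
    (fun x _ => (h x).continuousAt.continuousWithinAt)
    (fun x _ => (h x).differentiableAt.differentiableWithinAt)
    (fun x hx => by
      rw [interior_Icc] at hx
      rw [(h x).deriv]
      exact hm x hx.1.le hx.2.le)
    u (Set.left_mem_Icc.2 huv) v (Set.right_mem_Icc.2 huv) huv
  exact h1

theorem fam_of (k : ℕ) (hk : 3 ≤ k) (Φ Φ1 Φ2 D D1 : ℝ → ℝ → ℝ) (κ γ : ℝ) (hκ : 0 < κ)
    (ht : ∀ θ x, HasDerivAt (fun t => Φ t x) (Φ1 θ x) θ)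
    (ht1 : ∀ θ x, HasDerivAt (fun t => Φ1 t x) (Φ2 θ x) θ)
    (hx : ∀ θ x, HasDerivAt (Φ θ) (D θ x) x) (hx1 : ∀ θ x, HasDerivAt (Φ1 θ) (D1 θ x) x)
    (as1 : ∀ R ε : ℝ, 0 < ε → ∃ X0 : ℝ, 1 ≤ X0 ∧ ∀ θ, |θ| ≤ R → ∀ x, X0 ≤ x →
      |D θ x - κ * x ^ (k - 1)| ≤ ε * x ^ (k - 1))
    (as2 : ∀ R ε : ℝ, 0 < ε → ∃ X0 : ℝ, 1 ≤ X0 ∧ ∀ θ, |θ| ≤ R → ∀ x, X0 ≤ x →
      |-γ * D1 θ x + 6 * κ * x ^ (k - 2)| ≤ ε * x ^ (k - 2))
    (bd : ∀ R : ℝ, ∃ C X0 : ℝ, 1 ≤ X0 ∧ ∀ θ, |θ| ≤ R → ∀ x, X0 ≤ x →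
      |Φ θ x| ≤ C * x ^ k ∧ |Φ1 θ x| ≤ C * x ^ (k - 1) ∧ |Φ2 θ x| ≤ C * x ^ (k - 2)) :
    Fam k Φ Φ1 Φ2 := by
  refine ⟨ht, ht1, fun R => ?_⟩
  obtain ⟨XA, hXA, hA⟩ := as1 R (κ / 33) (by positivity)
  obtain ⟨XB, hXB, hB⟩ := as2 R (κ / 33) (by positivity)
  obtain ⟨C, XC, hXC, hC⟩ := bd R
  set Q0 := max XA (max XB XC) with hQ0
  have hQA : XA ≤ Q0 := le_max_left _ _
  have hQB : XB ≤ Q0 := (le_max_left _ _).trans (le_max_right _ _)
  have hQC : XC ≤ Q0 := (le_max_right _ _).trans (le_max_right _ _)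
  refine ⟨κ / 2, max 1 (|C| * 32 ^ k), Q0, γ, by positivity, le_max_left _ _, by linarith, ?_⟩
  intro θ hθ Q hQ
  have hQ1 : 1 ≤ Q := by linarith
  have hQ00 : 0 < Q := by linarith
  have hkk : Q ^ (k - 1) = Q * Q ^ (k - 2) := by
    rw [← pow_succ']; congr 1; omega
  have hxk : ∀ x : ℝ, x ^ (k - 1) = x * x ^ (k - 2) := by
    intro x; rw [← pow_succ']; congr 1; omega
  -- the derivative of the combination
  have hcomb : ∀ x, HasDerivAt (fun x => Φ θ x - γ * Q * Φ1 θ x) (D θ x - γ * Q * D1 θ x) x :=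
    fun x => (hx θ x).sub ((hx1 θ x).const_mul (γ * Q))
  refine ⟨?_, ?_, ?_, ?_⟩
  · intro u hu1 hu2
    obtain ⟨b1, b2, b3⟩ := hC θ hθ u (by linarith)
    have hu0 : 0 ≤ u := by linarith
    have hb : ∀ m, m ≤ k → C * u ^ m ≤ max 1 (|C| * 32 ^ k) * Q ^ m := by
      intro m hm
      calc C * u ^ m ≤ |C| * (32 * Q) ^ m := by
            apply mul_le_mul (le_abs_self C) (pow_le_pow_left₀ hu0 hu2 m) (by positivity)
              (abs_nonneg _)
        _ = |C| * 32 ^ m * Q ^ m := by rw [mul_pow]; ring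
        _ ≤ |C| * 32 ^ k * Q ^ m := by
            have : (32 : ℝ) ^ m ≤ 32 ^ k := pow_le_pow_right₀ (by norm_num) hm
            gcongr
        _ ≤ max 1 (|C| * 32 ^ k) * Q ^ m := by
            have := le_max_right 1 (|C| * 32 ^ k)
            gcongr
    exact ⟨b1.trans (hb k le_rfl), b2.trans (hb _ (Nat.sub_le _ _)), b3.trans (hb _ (Nat.sub_le _ _))⟩
  · intro u v hu huv _
    apply mvt (hx θ) huv
    intro x hx1' _
    have h1 := (abs_le.1 (hA θ hθ x (by linarith))).1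
    have hx0 : Q ≤ x := by linarith
    have h2 : Q ^ (k - 1) ≤ x ^ (k - 1) := pow_le_pow_left₀ hQ00.le hx0 _
    have h3 : 0 < Q ^ (k - 1) := by positivity
    nlinarith
  · intro u v hu huv hv
    have h0 := mvt (F := fun x => -(Φ θ x - γ * Q * Φ1 θ x)) (m := κ / 2 * Q ^ (k - 1))
      (fun x => (hcomb x).neg) huv (by
        intro x hxu hxv
        have hx0 : Q ≤ x := by linarith
        have hx4 : x ≤ 4 * Q := by linarith
        have h1 := (abs_le.1 (hA θ hθ x (by linarith))).2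
        have h2 := (abs_le.1 (hB θ hθ x (by linarith))).2
        have hp : 0 < x ^ (k - 2) := by have : 0 < x := by linarith
                                        positivity
        have hpQ : Q ^ (k - 2) ≤ x ^ (k - 2) := pow_le_pow_left₀ hQ00.le hx0 _
        rw [hxk x] at h1
        rw [hkk]
        have h3 : Q * (-γ * D1 θ x + 6 * κ * x ^ (k - 2)) ≤ Q * (κ / 33 * x ^ (k - 2)) :=
          mul_le_mul_of_nonneg_left h2 hQ00.le
        have h4 : x * x ^ (k - 2) ≤ 4 * Q * x ^ (k - 2) := mul_le_mul_of_nonneg_right hx4 hp.le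
        have h5 : κ * (x * x ^ (k - 2)) ≤ κ * (4 * Q * x ^ (k - 2)) :=
          mul_le_mul_of_nonneg_left h4 hκ.le
        have h6 : κ * (Q * Q ^ (k - 2)) ≤ κ * (Q * x ^ (k - 2)) := by gcongr
        have h7 : 0 ≤ κ * (Q * x ^ (k - 2)) := by positivity
        nlinarith)
    linarith
  · intro u v hu huv hv
    have h0 := mvt (F := fun x => Φ θ x - γ * Q * Φ1 θ x) (m := κ / 2 * Q ^ (k - 1))
      hcomb huv (by
        intro x hxu hxv
        have hx0 : 8 * Q ≤ x := by linarith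
        have hx4 : x ≤ 32 * Q := by linarith
        have h1 := (abs_le.1 (hA θ hθ x (by linarith))).1
        have h2 := (abs_le.1 (hB θ hθ x (by linarith))).1
        have hp : 0 < x ^ (k - 2) := by have : 0 < x := by linarith
                                        positivity
        have hpQ : Q ^ (k - 2) ≤ x ^ (k - 2) := pow_le_pow_left₀ hQ00.le (by linarith) _
        rw [hxk x] at h1
        rw [hkk]
        have h3 : Q * -(κ / 33 * x ^ (k - 2)) ≤ Q * (-γ * D1 θ x + 6 * κ * x ^ (k - 2)) :=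
          mul_le_mul_of_nonneg_left h2 hQ00.le
        have h4 : 8 * Q * x ^ (k - 2) ≤ x * x ^ (k - 2) := mul_le_mul_of_nonneg_right hx0 hp.le
        have h4' : x * x ^ (k - 2) ≤ 32 * Q * x ^ (k - 2) := mul_le_mul_of_nonneg_right hx4 hp.le
        have h5 : κ * (8 * Q * x ^ (k - 2)) ≤ κ * (x * x ^ (k - 2)) :=
          mul_le_mul_of_nonneg_left h4 hκ.le
        have h5' : κ * (x * x ^ (k - 2)) ≤ κ * (32 * Q * x ^ (k - 2)) :=
          mul_le_mul_of_nonneg_left h4' hκ.le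
        have h6 : κ * (Q * Q ^ (k - 2)) ≤ κ * (Q * x ^ (k - 2)) := by gcongr
        have h7 : 0 ≤ κ * (Q * x ^ (k - 2)) := by positivity
        nlinarith)
    linarith

theorem s_FAMS : S_FAMS := by
  intro k g hk hg hl
  have hg' : (derivative g).natDegree ≤ k - 1 := by rw [← hg]; exact natDegree_derivative_le g
  have hg'' : (derivative (derivative g)).natDegree ≤ k - 2 := by
    have := natDegree_derivative_le (derivative g)
    omega
  have hc : g.coeff k = g.leadingCoeff := by rw [← hg]; rfl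
  have hc1 : (derivative g).coeff (k - 1) = k * g.leadingCoeff := by
    rw [coeff_derivative, ← hc]
    have e1 : k - 1 + 1 = k := by omega
    have e2 : ((k - 1 : ℕ) : ℝ) + 1 = k := by
      rw [Nat.cast_sub (by omega)]; push_cast; ring
    rw [e1, e2]; ring
  have hc2 : (derivative (derivative g)).coeff (k - 2) = k * (k - 1) * g.leadingCoeff := by
    rw [coeff_derivative]
    have e1 : k - 2 + 1 = k - 1 := by omega
    have e2 : ((k - 2 : ℕ) : ℝ) + 1 = k - 1 := by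
      rw [Nat.cast_sub (by omega)]; push_cast; ring
    rw [e1, e2, hc1]; ring
  have hkr : (3 : ℝ) ≤ k := by exact_mod_cast hk
  have hk1 : (0 : ℝ) < (k : ℝ) - 1 := by linarith
  -- derivatives
  have dth : ∀ (q : ℝ[X]) (θ x : ℝ), HasDerivAt (fun t => q.eval (x - t))
      (-(derivative q).eval (x - θ)) θ := by
    intro q θ x
    have h1 : HasDerivAt (fun t => q.eval (x - t)) ((derivative q).eval (x - θ) * (-1)) θ :=
      (q.hasDerivAt (x - θ)).comp θ ((hasDerivAt_id θ).const_sub x)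
    exact h1.congr_deriv (by ring)
  have dx : ∀ (q : ℝ[X]) (θ x : ℝ), HasDerivAt (fun y => q.eval (y - θ))
      ((derivative q).eval (x - θ)) x := by
    intro q θ x
    have h0 : HasDerivAt (fun y : ℝ => y - θ) 1 x := (hasDerivAt_id' x).sub_const θ
    have h2 : HasDerivAt (fun y => q.eval y) ((derivative q).eval (x - θ)) (x - θ) :=
      q.hasDerivAt (x - θ)
    have h1 := HasDerivAt.comp (h₂ := fun y => q.eval y) (h := fun y : ℝ => y - θ) x h2 h0
    exact h1.congr_deriv (by ring)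
  apply fam_of k hk _ _ _ (fun θ x => (derivative g).eval (x - θ))
    (fun θ x => -(derivative (derivative g)).eval (x - θ)) (k * g.leadingCoeff) (-6 / (k - 1))
    (by positivity)
  · intro θ x
    exact dth g θ x
  · intro θ x
    have h1 : HasDerivAt (fun t => -(derivative g).eval (x - t))
      (-(-(derivative (derivative g)).eval (x - θ))) θ := (dth (derivative g) θ x).neg
    exact h1.congr_deriv (by ring)
  · intro θ x
    exact dx g θ x
  · intro θ x
    exact (dx (derivative g) θ x).neg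
  · intro R ε hε
    obtain ⟨X0, h0, h1⟩ := asym (derivative g) (k - 1) hg' R ε hε
    rw [hc1] at h1
    exact ⟨X0, h0, h1⟩
  · intro R ε hε
    obtain ⟨X0, h0, h1⟩ := asym (derivative (derivative g)) (k - 2) hg'' R (ε * (k - 1) / 6)
      (by positivity)
    rw [hc2] at h1
    refine ⟨X0, h0, fun θ hθ x hx => ?_⟩
    have h2 := h1 θ hθ x hx
    have e1 : -(-6 / ((k : ℝ) - 1)) * -(derivative (derivative g)).eval (x - θ) +
        6 * (k * g.leadingCoeff) * x ^ (k - 2) =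
        -(6 / ((k : ℝ) - 1)) * ((derivative (derivative g)).eval (x - θ) -
          k * (k - 1) * g.leadingCoeff * x ^ (k - 2)) := by
      field_simp
      ring
    rw [e1, abs_mul, abs_neg, abs_of_pos (by positivity : (0 : ℝ) < 6 / ((k : ℝ) - 1))]
    calc 6 / ((k : ℝ) - 1) * |(derivative (derivative g)).eval (x - θ) -
          k * (k - 1) * g.leadingCoeff * x ^ (k - 2)|
        ≤ 6 / ((k : ℝ) - 1) * (ε * (k - 1) / 6 * x ^ (k - 2)) := by gcongr
      _ = ε * x ^ (k - 2) := by field_simp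
  · intro R
    obtain ⟨X1, a1, b1⟩ := bd_of_asym g k hg.le R
    obtain ⟨X2, a2, b2⟩ := bd_of_asym (derivative g) (k - 1) hg' R
    obtain ⟨X3, a3, b3⟩ := bd_of_asym (derivative (derivative g)) (k - 2) hg'' R
    set c1 := |g.coeff k| + 1
    set c2 := |(derivative g).coeff (k - 1)| + 1
    set c3 := |(derivative (derivative g)).coeff (k - 2)| + 1
    refine ⟨max c1 (max c2 c3), max X1 (max X2 X3), a1.trans (le_max_left _ _), ?_⟩
    intro θ hθ x hx
    rw [max_le_iff, max_le_iff] at hx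
    have hx0 : 0 < x := by linarith [hx.1]
    refine ⟨(b1 θ hθ x hx.1).trans ?_, ?_, (b3 θ hθ x hx.2.2).trans ?_⟩
    · have := le_max_left c1 (max c2 c3)
      gcongr
    · rw [abs_neg]
      refine (b2 θ hθ x hx.2.1).trans ?_
      have := (le_max_left c2 c3).trans (le_max_right c1 (max c2 c3))
      gcongr
    · have := (le_max_right c2 c3).trans (le_max_right c1 (max c2 c3))
      gcongr

theorem s_FAML : S_FAML := by
  intro k g hk hg hl
  have hg' : (derivative g).natDegree ≤ k - 1 := by rw [← hg]; exact natDegree_derivative_le g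
  have hc : g.coeff k = g.leadingCoeff := by rw [← hg]; rfl
  have hc1 : (derivative g).coeff (k - 1) = k * g.leadingCoeff := by
    rw [coeff_derivative, ← hc]
    have e1 : k - 1 + 1 = k := by omega
    have e2 : ((k - 1 : ℕ) : ℝ) + 1 = k := by
      rw [Nat.cast_sub (by omega)]; push_cast; ring
    rw [e1, e2]; ring
  have hkr : (3 : ℝ) ≤ k := by exact_mod_cast hk
  have hk1 : (0 : ℝ) < (k : ℝ) - 1 := by linarith
  have hk1' : ((k - 1 : ℕ) : ℝ) = (k : ℝ) - 1 := by
    rw [Nat.cast_sub (by omega)]; push_cast; ring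
  have hxk : ∀ x : ℝ, x ^ (k - 1) = x * x ^ (k - 2) := by
    intro x; rw [← pow_succ']; congr 1; omega
  have hxk2 : ∀ x : ℝ, x ^ k = x * x ^ (k - 1) := by
    intro x; rw [← pow_succ']; congr 1; omega
  have dpow : ∀ x : ℝ, HasDerivAt (fun y : ℝ => y ^ (k - 1)) (((k : ℝ) - 1) * x ^ (k - 2)) x := by
    intro x
    have := hasDerivAt_pow (k - 1) x
    rw [hk1'] at this
    exact this
  apply fam_of k hk _ _ _ (fun θ x => (derivative g).eval x + θ * (((k : ℝ) - 1) * x ^ (k - 2)))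
    (fun _ x => ((k : ℝ) - 1) * x ^ (k - 2)) (k * g.leadingCoeff)
    (6 * (k * g.leadingCoeff) / (k - 1)) (by positivity)
  · intro θ x
    have := ((hasDerivAt_id θ).mul_const (x ^ (k - 1))).const_add (g.eval x)
    simpa using this
  · intro θ x
    exact hasDerivAt_const θ _
  · intro θ x
    exact (g.hasDerivAt x).add ((dpow x).const_mul θ)
  · intro θ x
    exact dpow x
  · intro R ε hε
    obtain ⟨X0, h0, h1⟩ := asym (derivative g) (k - 1) hg' 0 (ε / 2) (by positivity)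
    rw [hc1] at h1
    refine ⟨max X0 (2 * |R| * (k - 1) / ε), h0.trans (le_max_left _ _), fun θ hθ x hx => ?_⟩
    rw [max_le_iff] at hx
    have h2 := h1 0 (by simp) x hx.1
    rw [sub_zero] at h2
    have hx0 : 0 < x := by linarith [hx.1]
    have hp : 0 < x ^ (k - 2) := by positivity
    have h3 : |θ * (((k : ℝ) - 1) * x ^ (k - 2))| ≤ ε / 2 * x ^ (k - 1) := by
      rw [abs_mul, abs_of_pos (by positivity : (0 : ℝ) < ((k : ℝ) - 1) * x ^ (k - 2)), hxk x]
      have h4 := hx.2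
      rw [div_le_iff₀ hε] at h4
      have h5 : |θ| ≤ |R| := hθ.trans (le_abs_self R)
      calc |θ| * (((k : ℝ) - 1) * x ^ (k - 2)) ≤ |R| * (((k : ℝ) - 1) * x ^ (k - 2)) := by gcongr
        _ = (2 * |R| * (k - 1)) * (x ^ (k - 2) / 2) := by ring
        _ ≤ (x * ε) * (x ^ (k - 2) / 2) := by gcongr
        _ = ε / 2 * (x * x ^ (k - 2)) := by ring
    calc |(derivative g).eval x + θ * (((k : ℝ) - 1) * x ^ (k - 2)) -
          k * g.leadingCoeff * x ^ (k - 1)| =
        |((derivative g).eval x - k * g.leadingCoeff * x ^ (k - 1)) +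
          θ * (((k : ℝ) - 1) * x ^ (k - 2))| := by congr 1; ring
      _ ≤ |(derivative g).eval x - k * g.leadingCoeff * x ^ (k - 1)| +
          |θ * (((k : ℝ) - 1) * x ^ (k - 2))| := abs_add_le _ _
      _ ≤ ε * x ^ (k - 1) := by linarith
  · intro R ε hε
    refine ⟨1, le_rfl, fun θ _ x hx => ?_⟩
    have e1 : -(6 * (k * g.leadingCoeff) / ((k : ℝ) - 1)) * (((k : ℝ) - 1) * x ^ (k - 2)) +
        6 * (k * g.leadingCoeff) * x ^ (k - 2) = 0 := by
      field_simp
      ring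
    rw [e1, abs_zero]
    have : 0 < x := by linarith
    positivity
  · intro R
    obtain ⟨X1, a1, b1⟩ := bd_of_asym g k hg.le 0
    set c1 := |g.coeff k| + 1
    refine ⟨c1 + |R| + 1, X1, a1, ?_⟩
    intro θ hθ x hx
    have hx1 : 1 ≤ x := by linarith
    have hx0 : 0 < x := by linarith
    have h2 := b1 0 (by simp) x hx
    rw [sub_zero] at h2
    have h5 : |θ| ≤ |R| := hθ.trans (le_abs_self R)
    have hc10 : 0 ≤ c1 := by positivity
    have hp1 : 0 < x ^ (k - 1) := by positivity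
    have hp2 : 0 < x ^ (k - 2) := by positivity
    have hpk : x ^ (k - 1) ≤ x ^ k := pow_le_pow_right₀ hx1 (Nat.sub_le _ _)
    refine ⟨?_, ?_, ?_⟩
    · calc |g.eval x + θ * x ^ (k - 1)| ≤ |g.eval x| + |θ * x ^ (k - 1)| := abs_add_le _ _
        _ = |g.eval x| + |θ| * x ^ (k - 1) := by rw [abs_mul, abs_of_pos hp1]
        _ ≤ c1 * x ^ k + |R| * x ^ k := by gcongr
        _ ≤ (c1 + |R| + 1) * x ^ k := by
            have : 0 ≤ x ^ k := by positivity
            nlinarith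
    · rw [abs_of_pos hp1]
      have : 0 ≤ |R| := abs_nonneg R
      nlinarith
    · rw [abs_zero]
      have : 0 ≤ |R| := abs_nonneg R
      positivity

end Pool.Agent.L7h22.WB
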